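import Pool.Agent.AT3.Stmts3

/-!
# Squad AT2: Alperin's weight conjecture for abelian defect groups `D` with `|D| < exp(D)²`:
definitions

Text: `AWC_T2.md` (note 2623, part B).  Everything on top of squad AT3 (`Pool.Agent.PP.T3`).
-/

open scoped BigOperators

noncomputable section

namespace Pool.Agent.PP.T2

open Pool.Agent.Helper51_AWC Pool.Agent.Helper79_WRA Pool.Agent.PP Pool.Agent.PP.KF
open Pool.Agent.PP.K9 Pool.Agent.PP.K9.H97 Pool.Agent.PP.H75 Pool.Agent.PP.T3

attribute [local instance] Ideal.Quotient.field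

section defs

variable {G : Type} [Group G]

/-- the subgroup generated by the `n`-th powers of the elements of `V` -/
def Uw (n : ℕ) (V : Subgroup G) : Subgroup G :=
  Subgroup.closure ((fun x : G => x ^ n) '' (V : Set G))

variable (G) in
/-- `N` acts trivially on the elements of order prime to `ℓ`, and as `1 + ℓ` on the
`ℓ`-elements; its powers act on the `ℓ`-elements as all the numbers `= 1` mod `ℓ`. -/
structure GS (ℓ N : ℕ) : Prop where
  cop : N.Coprime (Nat.card G)
  reg : ∀ g : G, Reg ℓ g → g ^ N = g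
  pow : ∀ y : G, El ℓ y → y ^ N = y ^ (1 + ℓ)
  gen : ∀ j j' : ℕ, ¬ ℓ ∣ j → j ≡ j' [MOD ℓ] → ∃ k : ℕ, ∀ y : G, El ℓ y →
    (y ^ j) ^ N ^ k = y ^ j'

/-- The type of the defect group: exponent `ℓ ^ a`, order smaller than `ℓ ^ (2 a)`, and the inertial
index `i` is smaller than `ℓ` or `V` is generated by two elements. -/
structure Ty (ℓ a : ℕ) (V : Subgroup G) (i : ℕ) : Prop where
  pos : 0 < a
  exp : Monoid.exponent V = ℓ ^ a
  small : Nat.card V < ℓ ^ (2 * a)
  gen : i < ℓ ∨ ∃ x y : G, V = Subgroup.closure {x, y}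

variable (M : Ideal (integralClosure ℤ ℂ)) [M.IsMaximal]

/-- The hypothesis of the induction: the alternating sum is zero for all the blocks of groups of
order less than `n` whose defect group is a quotient of `V` of exponent `ℓ ^ a` and whose inertial
index is at most `i`. -/
def Ih (ℓ a n : ℕ) (V : Subgroup G) (i : ℕ) : Prop :=
  ∀ (A : Type) [Group A] [Finite A], Nat.card A < n → ∀ (f : A → FF M) (V' : Subgroup A)
    (γ' : A → FF M), Ld ℓ f V' γ' → Monoid.exponent V' = ℓ ^ a →
    (∃ π : V →* V', Function.Surjective π) → ix V' γ' ≤ i → YY ℓ ⊤ f = 0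

/-- `f` is the block of the normaliser of `U` (a characteristic subgroup of `V`) which is under
`br_U(e)` and over `γ`. -/
structure Fs {F : Type} [Field F] (ℓ : ℕ) (e : G → F) (V U : Subgroup G) (γ f : G → F) : Prop where
  blk : Bx (Subgroup.normalizer (U : Set G)) f
  supp : ∀ x, x ∉ Subgroup.centralizer (U : Set G) → f x = 0
  und : mulF (br U e) f = f
  brV : br V f = br V e
  nle : Subgroup.normalizer (V : Set G) ≤ Subgroup.normalizer (U : Set G)
  ld : Ld ℓ (fun t : Subgroup.normalizer (U : Set G) => f t)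
    (V.subgroupOf (Subgroup.normalizer (U : Set G)))
    (fun t : Subgroup.normalizer (U : Set G) => γ t)
  ix : ix (V.subgroupOf (Subgroup.normalizer (U : Set G)))
    (fun t : Subgroup.normalizer (U : Set G) => γ t) = ix V γ

/-- `Q` is between the conjugate `q U q⁻¹` and its centraliser. -/
def Bt (U Q : Subgroup G) (q : G) : Prop :=
  conjS q U ≤ Q ∧ Q ≤ Subgroup.centralizer ((conjS q U : Subgroup G) : Set G)

/-- the part of `br_Q(e)` over the conjugates of `(U, f)` -/
def brU {F : Type} [Field F] (U Q : Subgroup G) (f : G → F) : G → F :=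
  fun t => ∑ᶠ (q : G ⧸ Subgroup.normalizer (U : Set G)) (_ : Bt U Q q.out),
    br Q (cj q.out f) t

end defs

end Pool.Agent.PP.T2
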