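import Pool.Agent.AT2.Defs

/-!
# Squad AT2: Alperin's weight conjecture for abelian defect groups `D` with `|D| < exp(D)²`

THEOREM T2.  `ℓ` odd, `e` a block with an abelian defect group `V` of exponent `ℓ ^ a`,
`|V| < ℓ ^ (2 a)`, and `V` is generated by two elements or the inertial index is smaller than `ℓ`.
Then the alternating sum of `e` is zero.  In particular all `V = C_(ℓ^a) × C_(ℓ^b)`, `a ≠ b`.

Proof.  `U = V ^ (ℓ ^ (a-1))` (order `ℓ`, characteristic in `V`), `X = N(U)`, `f` the block of `X`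
over `γ`.  (1) `l(e) ≤ ℓ ^ a` for every block of this type (part 1).  (2) The recursion over
`N(Q)/Q`: the blocks of `N(Q)/Q` whose defect group has exponent `ℓ ^ a` have alternating sum `0` by
induction; for the other ones `Q` contains a conjugate of `U`, and they are the same in `G` and in
`X`.  The alternating sum of `f` is `0` because `O_ℓ(X) ≠ 1`.  So `S(e) = l(e) - l(f)` (part 2).
(3) `ℓ ^ a` divides `S(e)` and `|S(e)| < ℓ ^ a`.  All rows are independent; complete proofs in the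
docstrings.  Statements of squad AT3 (`T3.XxxStmt`) may be used as hypotheses.
-/

open scoped BigOperators

noncomputable section

namespace Pool.Agent.PP.T2

open Pool.Agent.Helper51_AWC Pool.Agent.Helper79_WRA Pool.Agent.PP Pool.Agent.PP.KF
open Pool.Agent.PP.K9 Pool.Agent.PP.K9.H97 Pool.Agent.PP.H75 Pool.Agent.PP.T3

attribute [local instance] Ideal.Quotient.field

/-! ## 1. The bound for the number of modular characters -/

/-- PR2: existence of `N`.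

Proof.  `|G| = ℓ ^ A m`, `m` prime to `ℓ`.  `N = 1 + ℓ` mod `ℓ ^ A`, `N = 1` mod `m` (Chinese
remainder theorem).  `N` is prime to `|G|`.  `gen`: `c = j' / j` mod `ℓ ^ A` is `1` mod `ℓ`, and the
units mod `ℓ ^ A` which are `1` mod `ℓ` are the powers of `1 + ℓ` (`ℓ` odd: the order of `1 + ℓ` mod
`ℓ ^ A` is `ℓ ^ (A-1)`), so `c = N ^ k` mod `ℓ ^ A`, `(y ^ j) ^ N ^ k = y ^ (j c) = y ^ j'`. -/
def Pr2Stmt : Prop := ∀ (ℓ : ℕ) [Fact ℓ.Prime], ℓ ≠ 2 → ∀ (G : Type) [Group G] [Finite G],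
  ∃ N : ℕ, GS G ℓ N

/-- FXY: one `ℓ`-element `y` in the proof of `T3.FixStmt` (no condition on `N` besides that it is
prime to `|G|`).  Proof: see `T3.FixStmt`, (1), (2), (3). -/
def FxyStmt : Prop := ∀ (ℓ : ℕ) [Fact ℓ.Prime] (M : Ideal (integralClosure ℤ ℂ)) [M.IsMaximal],
  (ℓ : integralClosure ℤ ℂ) ∈ M → ∀ (G : Type) [Group G] [Finite G] (N : ℕ),
  N.Coprime (Nat.card G) → ∀ e : G → FF M, IsIdem e → ∀ y : G, y ≠ 1 → El ℓ y →
  (∀ b : G → FF M, Bx (Cu y) b →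
    mulF (fun t : Cu y => e t) (fun t : Cu y => b t) = (fun t : Cu y => b t) →
    ∀ g : G, g * y * g⁻¹ = y ^ N → cj g b ≠ b) →
  ∑ᶠ (s : G) (_ : s ∈ Cu y ∧ Reg ℓ s), ∑ᶠ χ ∈ IrrE M e,
    χ (y ^ N * s) * starRingEnd ℂ (χ (y * s)) = 0

/-- FXS: a bound by the number of the fixed characters.

Proof.  By RTC (for `N` prime to `|G|`, trivial on the regular elements) `χ ∘ (· ^ N)` is an
irreducible character in `e` for `χ` in `e`, so the number of the fixed characters is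
`|G|⁻¹ ∑_g ∑_{χ ∈ e} χ(g ^ N) conj χ(g)`.  Write `g = y s = s y`, `y` its `ℓ`-part.  The elements with
`y ^ ℓ ≠ 1` contribute `0` (FXY for each such `y`, `(y s) ^ N = y ^ N s`).  If `y ^ ℓ = 1` then
`g ^ N = y ^ (1 + ℓ) s = g` and the contribution is `∑ |χ(g)|² ≥ 0`.  The elements with `y = 1` give
`|G|⁻¹ ∑_{s regular} ∑_{χ ∈ e} |χ(s)|² = ln e` (`T3.LrkStmt`). -/
def FxsStmt : Prop := ∀ (ℓ : ℕ) [Fact ℓ.Prime] (M : Ideal (integralClosure ℤ ℂ)) [M.IsMaximal],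
  (ℓ : integralClosure ℤ ℂ) ∈ M → ∀ (G : Type) [Group G] [Finite G] (N : ℕ), GS G ℓ N →
  ∀ e : G → FF M, IsIdem e →
  (∀ y : G, El ℓ y → y ^ ℓ ≠ 1 → ∀ b : G → FF M, Bx (Cu y) b →
    mulF (fun t : Cu y => e t) (fun t : Cu y => b t) = (fun t : Cu y => b t) →
    ∀ g : G, g * y * g⁻¹ = y ^ N → cj g b ≠ b) →
  ln e ≤ {χ | χ ∈ IrrE M e ∧ ∀ g, χ (g ^ N) = χ g}.ncard

/-- STG: no pair `(y, b)`, `y ^ ℓ ≠ 1`, is conjugate to `(y ^ (1 + ℓ), b)`.

Proof.  As `T3.NstStmt` up to the element `t ∈ T₁ = Tg V γ₁` with `t y t⁻¹ = y ^ N = y ^ (1 + ℓ)`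
(`y ∈ V`; uses DUG, FMG, LPW, FUS).  Let `m = |T₁ : C(V)|` (`ix V γ₁ = ix V γ` by GCH); `C(V)` is
normal in `T₁`, so `t ^ m ∈ C(V)`, `y = t ^ m y t ^ (-m) = y ^ ((1 + ℓ) ^ m)`.  The order of `y` is
divisible by `ℓ ^ 2`, so `(1 + ℓ) ^ m = 1` mod `ℓ ^ 2`, `(1 + ℓ) ^ m = 1 + m ℓ` mod `ℓ ^ 2`, so
`ℓ ∣ m`, against `K9.InxStmt`. -/
def StgStmt : Prop := ∀ (ℓ : ℕ) [Fact ℓ.Prime] (M : Ideal (integralClosure ℤ ℂ)) [M.IsMaximal],
  (ℓ : integralClosure ℤ ℂ) ∈ M → ∀ (G : Type) [Group G] [Finite G] (N : ℕ), GS G ℓ N →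
  ∀ (e : G → FF M) (V : Subgroup G) (γ : G → FF M), Ld ℓ e V γ → ∀ y : G, El ℓ y → y ^ ℓ ≠ 1 →
  ∀ b : G → FF M, Bx (Cu y) b →
  mulF (fun t : Cu y => e t) (fun t : Cu y => b t) = (fun t : Cu y => b t) →
  ∀ g : G, g * y * g⁻¹ = y ^ N → cj g b ≠ b

/-- VJC: the values of the fixed characters.

Proof.  `b^` is supported on the regular elements `s` of `C(u)`, and
`χ(u ^ (j N) s) = χ((u ^ j s) ^ N) = χ(u ^ j s)`; iterate, with the `k` of `GS.gen`. -/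
def VjcStmt : Prop := ∀ (ℓ : ℕ) [Fact ℓ.Prime] (M : Ideal (integralClosure ℤ ℂ)) [M.IsMaximal],
  (ℓ : integralClosure ℤ ℂ) ∈ M → ∀ (G : Type) [Group G] [Finite G] (N : ℕ), GS G ℓ N →
  ∀ u : G, El ℓ u → ∀ b : G → FF M, Ix (Cu u) b → ∀ χ ∈ Irr G, (∀ g, χ (g ^ N) = χ g) →
  ∀ j j' : ℕ, ¬ ℓ ∣ j → j ≡ j' [MOD ℓ] → gv M (Cu u) (u ^ j) b χ = gv M (Cu u) (u ^ j') b χ

/-- ORJ: orthogonality for the powers of `u`.

Proof.  `C(u ^ j) = C(u ^ j') = C(u)` and `b` is the local block for all of them (LPW).  By CO2 it is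
enough that `b (cj x b) = 0` for all `x` with `x u ^ j' x⁻¹ = u ^ j`.  Otherwise `cj x b = b`
(`Bx.dich`), and FUS gives `t ∈ T` with `t u ^ j' t⁻¹ = u ^ j`.  `u` is a power of `u ^ j'`, so
`t v t⁻¹ = v ^ c` for all `v ∈ ⟨u⟩`, with `c j' = j` mod the order of `u`, so `c = 1` mod `ℓ`
(the order of `u` is divisible by `ℓ` since `u ^ j ≠ u ^ j'`).  `m = |T : C(V)|` is prime to `ℓ`
(`K9.InxStmt`), `t ^ m ∈ C(V)`, `c ^ m = 1` mod the order `ℓ ^ k` of `u`; the order of `c` mod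
`ℓ ^ k` is a power of `ℓ`, so `c = 1` mod `ℓ ^ k`, `u ^ j = u ^ j'`. -/
def OrjStmt : Prop := ∀ (ℓ : ℕ) [Fact ℓ.Prime] (M : Ideal (integralClosure ℤ ℂ)) [M.IsMaximal],
  (ℓ : integralClosure ℤ ℂ) ∈ M → ∀ (G : Type) [Group G] [Finite G] (e : G → FF M)
  (V : Subgroup G) (γ : G → FF M), Ld ℓ e V γ → ∀ u ∈ V, ∀ b, Lc e V γ u b → ∀ j j' : ℕ,
  ¬ ℓ ∣ j → j ≡ j' [MOD ℓ] → u ^ j ≠ u ^ j' →
    ∑ᶠ χ ∈ Irr G, gv M (Cu u) (u ^ j) b χ * starRingEnd ℂ (gv M (Cu u) (u ^ j') b χ) = 0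

/-- BJC: Bessel's inequality for the powers of a regular element `u` of order `ℓ ^ a`.

Proof.  Vectors `v i = (gv (u ^ i) b χ / d)_χ`, `χ ∈ Irr(G)`, for the `ℓ ^ (a-1)` numbers
`i < ℓ ^ a`, `i = j` mod `ℓ`.  They are orthogonal (ORJ) of norm squared `|V|` (CO1 for `u ^ i`,
`C(u ^ i) = C(u)`, `b` has `|V|` characters of degree `d` by RGL and uniqueness).  BES with
`c = |V|`, `s χ = conj (gv (u ^ j) b χ / d)` for `χ ∈ R` and `0` otherwise: `v i χ = v j χ` for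
`χ ∈ R` (VJC), so with `x = ∑_{χ ∈ R} |v j χ|²`: `ℓ ^ (a-1) x² ≤ |V| x`. -/
def BjcStmt : Prop := ∀ (ℓ : ℕ) [Fact ℓ.Prime] (M : Ideal (integralClosure ℤ ℂ)) [M.IsMaximal],
  (ℓ : integralClosure ℤ ℂ) ∈ M → ∀ (G : Type) [Group G] [Finite G] (N : ℕ), GS G ℓ N →
  ∀ (e : G → FF M) (V : Subgroup G) (γ : G → FF M), Ld ℓ e V γ → ∀ (u : G) (a : ℕ), Rg V γ u →
  0 < a → orderOf u = ℓ ^ a → ∀ b, Lc e V γ u b → ∀ d : ℕ, Dg M (fun t : Cu u => b t) d →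
  ∀ j : ℕ, ¬ ℓ ∣ j →
    (ℓ : ℝ) ^ (a - 1) * ∑ᶠ χ ∈ {χ | χ ∈ IrrE M e ∧ ∀ g, χ (g ^ N) = χ g},
      Complex.normSq (gv M (Cu u) (u ^ j) b χ / d) ≤ Nat.card V

/-- BN2: the number of the fixed characters.

Proof.  Let `R` be the set of the fixed characters, `v j χ = gv (u ^ j) b χ / d`.  For `χ ∈ R`
INR (`q = ℓ ^ a`) gives `v j χ = ∑ m_i ζ ^ (i j)`; `v 1 χ ≠ 0` (`K9.NzStmt`, `V` is good for `b` by
LSB), so by GLP `∑_j |v j χ|² ≥ ℓ ^ (a-1) (ℓ - 1)`, `j < ℓ ^ a` prime to `ℓ`.  Sum over `χ ∈ R` and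
use BJC for each of the `ℓ ^ (a-1) (ℓ - 1)` numbers `j`:
`|R| ℓ ^ (a-1) (ℓ - 1) ≤ ℓ ^ (a-1) (ℓ - 1) |V| / ℓ ^ (a-1)`. -/
def Bn2Stmt : Prop := ∀ (ℓ : ℕ) [Fact ℓ.Prime] (M : Ideal (integralClosure ℤ ℂ)) [M.IsMaximal],
  (ℓ : integralClosure ℤ ℂ) ∈ M → ∀ (G : Type) [Group G] [Finite G] (N : ℕ), GS G ℓ N →
  ∀ (e : G → FF M) (V : Subgroup G) (γ : G → FF M), Ld ℓ e V γ → ∀ (u : G) (a : ℕ), Rg V γ u →
  0 < a → orderOf u = ℓ ^ a →
    {χ | χ ∈ IrrE M e ∧ ∀ g, χ (g ^ N) = χ g}.ncard * ℓ ^ (a - 1) ≤ Nat.card V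

/-- UX1: a regular element of order `ℓ ^ a` if the inertial index is smaller than `ℓ`.

Proof.  The elements `u` of `V` with `u ^ ℓ ^ (a-1) = 1` form a proper subgroup, at most `|V|/ℓ`
elements.  If `u` is not regular and `u ≠ 1` then some `t ∈ T - C(V)` commutes with `u`; this
depends only on the coset `C(V) t`, and for given `t` these `u` form a proper subgroup of `V`.  So
at most `|V|/ℓ + (ix V γ - 1) |V|/ℓ < |V|` elements of `V` are of smaller order or not regular. -/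
def Ux1Stmt : Prop := ∀ (ℓ : ℕ) [Fact ℓ.Prime] (F : Type) [Field F], GoodF ℓ F → ∀ (G : Type)
  [Group G] [Finite G] (e : G → F) (V : Subgroup G) (γ : G → F), Ld ℓ e V γ → ∀ a : ℕ, 0 < a →
  Monoid.exponent V = ℓ ^ a → ix V γ < ℓ → ∃ u : G, Rg V γ u ∧ orderOf u = ℓ ^ a

/-- UX2: a regular element of order `ℓ ^ a` if `V` is generated by two elements and
`|V| < ℓ ^ (2 a)`.

Proof.  `Ω = {v ∈ V | v ^ ℓ ^ (a-1) = 1}`, `U = {v ^ ℓ ^ (a-1)}`, `|V : Ω| = |U|`.  `|U| = ℓ`: `U` has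
exponent `ℓ` and is generated by two elements; if `|U| = ℓ ^ 2` then `V` has at least
`(ℓ ^ 2) ^ a` elements (the sections `V ^ (ℓ^i) / V ^ (ℓ^(i+1))`, `i < a`, map onto `U` by the power
`ℓ ^ (a-1-i)`, with `V ^ (ℓ^(i+1))` in the kernel).  Let `T₀ = {t ∈ T | t` commutes with `U}`.
Claim: `|T₀ : C(V)| < ℓ`.  `T₀` acts trivially on `V/Ω` (`(t v t⁻¹ v⁻¹) ^ ℓ ^ (a-1) = 1`).
`|Ω : V ^ ℓ| ≤ ℓ` (`|V : V ^ ℓ| ≤ ℓ ^ 2`, two generators).  The elements of `T₀` which act trivially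
on `Ω/V ^ ℓ`: for such a `t`, `t ^ ℓ` acts trivially on `V/V ^ ℓ` (`(t - 1)² V ⊆ V ^ ℓ`), and then
`t ^ ℓ ^ k` acts trivially on `V` for large `k` (`(s - 1) V ⊆ V ^ (ℓ ^ i)` implies
`(s ^ ℓ - 1) V ⊆ V ^ (ℓ ^ (i+1))`), i.e. `t ^ ℓ ^ k ∈ C(V)`; also `t ^ m ∈ C(V)`, `m = ix V γ`
prime to `ℓ`, so `t ∈ C(V)`.  So `T₀/C(V)` embeds into the automorphisms of a group of order `1` or
`ℓ`, which are at most `ℓ - 1`.  Now an element `u` of order `ℓ ^ a` which is not regular commutes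
with some `t ∈ T - C(V)`, and `t ∈ T₀` since `u ^ ℓ ^ (a-1)` generates `U`.  So as in UX1 at most
`|V|/ℓ + (|T₀ : C(V)| - 1) |V|/ℓ < |V|` elements of `V` are of smaller order or not regular. -/
def Ux2Stmt : Prop := ∀ (ℓ : ℕ) [Fact ℓ.Prime] (F : Type) [Field F], GoodF ℓ F → ∀ (G : Type)
  [Group G] [Finite G] (e : G → F) (V : Subgroup G) (γ : G → F), Ld ℓ e V γ → ∀ a : ℕ, 0 < a →
  Monoid.exponent V = ℓ ^ a → Nat.card V < ℓ ^ (2 * a) → ¬ ℓ ∣ ix V γ →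
  (∃ x y : G, V = Subgroup.closure {x, y}) → ∃ u : G, Rg V γ u ∧ orderOf u = ℓ ^ a

/-- LB2: the bound for the number of modular characters.

Proof.  `N` from PR2, `u` from UX1 or UX2 (with `K9.InxStmt`).  FXS and STG: `ln e ≤ |R|`; BN2:
`|R| ℓ ^ (a-1) ≤ |V|`.  `|V|` is a power of `ℓ` smaller than `ℓ ^ (2 a)`, so `|V| ≤ ℓ ^ (2 a - 1)`,
`ln e ≤ ℓ ^ a`. -/
def Lb2Stmt : Prop := ∀ (ℓ : ℕ) [Fact ℓ.Prime] (M : Ideal (integralClosure ℤ ℂ)) [M.IsMaximal],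
  (ℓ : integralClosure ℤ ℂ) ∈ M → ℓ ≠ 2 → ∀ (G : Type) [Group G] [Finite G] (e : G → FF M)
  (V : Subgroup G) (γ : G → FF M), Ld ℓ e V γ → ∀ a : ℕ, Ty ℓ a V (ix V γ) → ln e ≤ ℓ ^ a

/-! ## 2. The recursion with telescoping -/

/-- PWU: the subgroup of the `n`-th powers of an abelian group.

Proof.  `v ↦ v ^ n` is an endomorphism of `V`. -/
def PwuStmt : Prop := ∀ (G : Type) [Group G] [Finite G] (n : ℕ) (V : Subgroup G),
  (∀ a ∈ V, ∀ b ∈ V, a * b = b * a) →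
  (∀ x, x ∈ Uw n V ↔ ∃ v ∈ V, x = v ^ n) ∧ Uw n V ≤ V ∧
  Subgroup.normalizer (V : Set G) ≤ Subgroup.normalizer (Uw n V : Set G) ∧
  Subgroup.centralizer (V : Set G) ≤ Subgroup.centralizer (Uw n V : Set G) ∧
  (∀ g : G, Uw n (conjS g V) = conjS g (Uw n V)) ∧
  (∀ (H : Type) [Group H] (φ : G →* H), Uw n (V.map φ) = (Uw n V).map φ) ∧
  (∀ X : Subgroup G, V ≤ X → Uw n (V.subgroupOf X) = (Uw n V).subgroupOf X) ∧
  ∀ (ℓ a : ℕ) [Fact ℓ.Prime], 0 < a → Monoid.exponent V = ℓ ^ a → n = ℓ ^ (a - 1) →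
    Uw n V ≠ ⊥ ∧ ∀ (H : Type) [Group H] (φ : G →* H),
      Monoid.exponent (V.map φ) = ℓ ^ a ∨ Uw n V ≤ φ.ker

/-- TYQ: the type of a quotient.

Proof.  `|V'| ≤ |V|`; the images of two generators generate. -/
def TyqStmt : Prop := ∀ (ℓ a : ℕ) (G A : Type) [Group G] [Finite G] [Group A] [Finite A]
  (V : Subgroup G) (V' : Subgroup A) (i i' : ℕ), Ty ℓ a V i → Monoid.exponent V' = ℓ ^ a →
  (∃ π : V →* V', Function.Surjective π) → i' ≤ i → Ty ℓ a V' i'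

/-- FST: the block of the normaliser of `U = V ^ n` over `γ`.

Proof.  `U ≤ V ≤ C(U) ≤ X = N(U)`, `C(V) ≤ C(U)`, `N(V) ≤ X` (PWU).  `br_U(e)`, restricted to `X`, is
a central idempotent of `F X` (`br_U` is multiplicative on `U`-invariant elements,
`H75.br_mulF`), the sum of blocks `f_i` of `X`.  A central idempotent of `F X` vanishes outside of
`C(U)`, since `U` is a normal `ℓ`-subgroup of `X` (compare `K9.LbrStmt`; `f_i` and `br_U(f_i)` act in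
the same way on all irreducible representations, so their difference is nilpotent, and two
commuting idempotents with nilpotent difference are equal).  As in LOC, `γ = ∑ br_V(f_i) γ` and
exactly one `f = f_i` has `br_V(f) γ = γ`.  `V` is good for `f`; a good `ℓ`-subgroup `P` of `f` is
good for `br_U(e)` and so for `e`, so `|P| ≤ |V|`.  `C_X(V) = C(V)`, `N_X(V) = N(V)`,
`T_X = T`; transfer `γ` (as in LSB and NVT).  `br_V(f)` and `br_V(e)` are blocks of `N(V)`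
(`FmgStmt` for `f` and for `e`, second part) which are not orthogonal
(`br_V(e) γ = γ = br_V(f) γ`), so they are equal. -/
def FstStmt : Prop := ∀ (ℓ : ℕ) [Fact ℓ.Prime] (M : Ideal (integralClosure ℤ ℂ)) [M.IsMaximal],
  (ℓ : integralClosure ℤ ℂ) ∈ M → ∀ (G : Type) [Group G] [Finite G] (e : G → FF M)
  (V : Subgroup G) (γ : G → FF M), Ld ℓ e V γ → ∀ n : ℕ, ∃ f, Fs ℓ e V (Uw n V) γ f

/-- ORT: the idempotents over different conjugates of `U` are orthogonal.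

Proof.  `E₁ = br_Q(cj g f)`, `E₂ = br_Q(cj h f)` are central idempotents of `F C(Q)`
(`C(Q) ≤ C(conjS g U) ≤ N(conjS g U)`, and `Q ≤ N(conjS g U)` acts trivially).  If `E₁ E₂ ≠ 0`,
let `b` be a block of `C(Q)` with `E₁ b = b = E₂ b`.  It is under `e` (`br_Q(e) E₁ = E₁`, from
`Fs.und`, conjugated, and `br_Q(br_{U'}(e)) = br_Q(e)` for `U' ≤ Q`).  DUG: `Q ≤ P ≤ C(Q)`,
`|P| = |V|`, `P` good for `b`.  So `P` is good for `cj g f`, a block of `N(conjS g U)` with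
defect group `conjS g V`, so (`FmgStmt` for `f` in `X`, transported, or for the group
`N(conjS g U)`) `P = conjS y (conjS g V)` with `y ∈ N(conjS g U)`.  So
`Uw n P = conjS y (conjS g U) = conjS g U` (PWU).  In the same way `Uw n P = conjS h U`. -/
def OrtStmt : Prop := ∀ (ℓ : ℕ) [Fact ℓ.Prime] (M : Ideal (integralClosure ℤ ℂ)) [M.IsMaximal],
  (ℓ : integralClosure ℤ ℂ) ∈ M → ∀ (G : Type) [Group G] [Finite G] (e : G → FF M)
  (V : Subgroup G) (γ : G → FF M), Ld ℓ e V γ → ∀ (n : ℕ) (f : G → FF M),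
  Fs ℓ e V (Uw n V) γ f → ∀ Q : Subgroup G, IsPGroup ℓ Q → ∀ g h : G, Bt (Uw n V) Q g →
  Bt (Uw n V) Q h → conjS g (Uw n V) ≠ conjS h (Uw n V) →
    mulF (br Q (cj g f)) (br Q (cj h f)) = 0

/-- FRS: the theorem of Fong and Reynolds, summed over all blocks of a normal subgroup `C`.

Proof.  `E` is the sum of the blocks `f` of `A` with `E f = f`, and `YY` is additive (`AddStmt`).
For such an `f` and a block `b` of `C` with `f b ≠ 0`: `E b = b` (`E f b = f b`, `E|C` a central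
idempotent), the blocks `b'` of `C` with `f b' ≠ 0` are the conjugates of `b` (`H75.Bd.sum_eq`:
`f` is the sum of the `f b'`, `b'` conjugate to `b`), `|A : stab b|` of them, and
`YY ⊤ f = |A : stab b| YY ⊤ (f b | stab b)` (`H75.Bd.yy`, no positivity needed; see
`Helper75_PP/Fr.lean`).  So `YY ⊤ f = ∑_{b, f b ≠ 0} YY ⊤ (f b | stab b)`, for all conjugates `b`.
Exchange the sums: for given `b`, the sum over `f` of `YY ⊤ (f b | stab b)` is
`YY ⊤ (b | stab b)`, since `b = E b = ∑_f f b`, a sum of orthogonal central idempotents of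
`F stab b` (`AddStmt`). -/
def FrsStmt : Prop := ∀ (ℓ : ℕ) [Fact ℓ.Prime] (F : Type) [Field F], GoodF ℓ F → ∀ (A : Type)
  [Group A] [Finite A] (C : Subgroup A), C.Normal → ∀ E : A → F, IsIdem E →
  (∀ x, x ∉ C → E x = 0) →
    YY ℓ ⊤ E = ∑ᶠ (b : A → F) (_ : Bx C b ∧ mulF E b = b),
      YY ℓ (⊤ : Subgroup (stabF b)) (fun t : stabF b => b t)

/-- TYA: the blocks of `N(Q)/Q` which are not over a conjugate of `(U, f)`.

Proof.  QT1: `k` with `Q ≤ conjS k V` and `V' = p(conjS k V)` a defect group of `f₁`.  LCJ and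
QT2 for `conjS k V`, `cj k γ`: `γ'`, `ix V' γ' ≤ ix V γ`.  `V → conjS k V → V'` is surjective.
By PWU the exponent of `V'` is `ℓ ^ a`, or `conjS k U ≤ Q`.  Suppose the latter.  Then
`push p (br_Q(cj k f)) f₁ = 0` by hypothesis.  Claim: for `h ∈ C_A(V')` the values of
`push p (br_Q e)` and of `push p (br_Q(cj k f))` at `h` are equal.  The group `conjS k V` acts on
the preimages of `h` in `N(Q)` by conjugation (`h` centralises `V'`), both functions `br_Q e` and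
`br_Q(cj k f)` are invariant under it (`conjS k V ≤ conjS k N(V) ≤ conjS k X`, `Q ≤ conjS k V`
abelian), so modulo `ℓ` only the fixed points `x ∈ C(conjS k V)` contribute (as in
`Helper2_K9/PUG.lean`), and there the two functions are `cj k (br_V e)` and `cj k (br_V f)`, which
are equal (`Fs.brV`).  So `br_{V'}(f₁) = br_{V'}(push (br_Q e)) br_{V'}(f₁)
= br_{V'}(push (br_Q(cj k f))) br_{V'}(f₁) = br_{V'}(push (br_Q(cj k f)) f₁) = 0`
(`H75.br_mulF`: both factors are invariant under `V'`), but `V'` is good for `f₁`. -/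
def TyaStmt : Prop := ∀ (ℓ : ℕ) [Fact ℓ.Prime] (M : Ideal (integralClosure ℤ ℂ)) [M.IsMaximal],
  (ℓ : integralClosure ℤ ℂ) ∈ M → ∀ (G : Type) [Group G] [Finite G] (e : G → FF M)
  (V : Subgroup G) (γ : G → FF M), Ld ℓ e V γ → ∀ a : ℕ, 0 < a → Monoid.exponent V = ℓ ^ a →
  ∀ f : G → FF M, Fs ℓ e V (Uw (ℓ ^ (a - 1)) V) γ f → ∀ Q : Subgroup G, IsPGroup ℓ Q →
  ∀ (A : Type) [Group A] [Finite A] (p : Subgroup.normalizer (Q : Set G) →* A),
  Function.Surjective p → p.ker = Q.subgroupOf (Subgroup.normalizer (Q : Set G)) →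
  ∀ f₁ : A → FF M, IsBlk f₁ →
  mulF (push p (fun t : Subgroup.normalizer (Q : Set G) => br Q e t)) f₁ = f₁ →
  (∀ g : G, conjS g (Uw (ℓ ^ (a - 1)) V) ≤ Q →
    mulF (push p (fun t : Subgroup.normalizer (Q : Set G) => br Q (cj g f) t)) f₁ = 0) →
  ∃ (V' : Subgroup A) (γ' : A → FF M), Ld ℓ f₁ V' γ' ∧ Monoid.exponent V' = ℓ ^ a ∧
    (∃ π : V →* V', Function.Surjective π) ∧ ix V' γ' ≤ ix V γ

/-- TEA: only the part over the conjugates of `(U, f)` contributes.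

Proof.  If `Q` is not good for `e` then `br_Q(e) = 0` and `br_Q(cj q f) = br_Q(e) br_Q(cj q f) = 0`
for all `q` with `Bt U Q q`, both sides are `0` (`H67.YY_zero`).  Let `Q` be good, so abelian.
`E₀ = br_Q(e) - brU U Q f`.  `brU U Q f` is a sum of orthogonal idempotents (ORT; different cosets
`q` give different conjugates of `U`) under `br_Q(e)` and invariant under `N(Q)` (it permutes the
conjugates of `(U, f)`; `cj g f` depends only on the coset of `g`), so `E₀` and `brU U Q f` are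
orthogonal central idempotents of `F N(Q)` with sum `br_Q(e)`; the same for their images under
`push` (`push` is multiplicative).  `AddStmt`: `YQ ℓ e Q = YY ⊤ (push E₀) + YY ⊤ (push (brU U Q f))`,
and the first term is the sum of the `YY ⊤ f₁` over the blocks `f₁` of `N(Q)/Q` under `push E₀`.
For such an `f₁` and `g` with `conjS g U ≤ Q`: `Bt U Q g` (`Q` is abelian), `br_Q(cj g f) E₀ = 0`, so
`push (br_Q(cj g f)) f₁ = 0`.  TYA and `Ih` (`|N(Q)/Q| < |G|` as `Q ≠ ⊥`): `YY ⊤ f₁ = 0`. -/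
def TeaStmt : Prop := ∀ (ℓ : ℕ) [Fact ℓ.Prime] (M : Ideal (integralClosure ℤ ℂ)) [M.IsMaximal],
  (ℓ : integralClosure ℤ ℂ) ∈ M → ∀ (G : Type) [Group G] [Finite G] (e : G → FF M)
  (V : Subgroup G) (γ : G → FF M), Ld ℓ e V γ → ∀ a : ℕ, 0 < a → Monoid.exponent V = ℓ ^ a →
  ∀ f : G → FF M, Fs ℓ e V (Uw (ℓ ^ (a - 1)) V) γ f →
  Ih M ℓ a (Nat.card G) V (ix V γ) → ∀ Q : Subgroup G, IsPGroup ℓ Q → Q ≠ ⊥ →
  YQ ℓ e Q = YY ℓ ⊤ (push (QuotientGroup.mk' (Q.subgroupOf (Subgroup.normalizer (Q : Set G))))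
    (fun t : Subgroup.normalizer (Q : Set G) => brU (Uw (ℓ ^ (a - 1)) V) Q f t))

/-- TEB: the part over the conjugates of `(U, f)` is the same in `G` and in `N(U)`.

Proof.  `A = N(Q)/Q`, `C'` the image of `C(Q)`, normal in `A`, `E_q` the image of `br_Q(cj q f)` for
`Bt U Q q` (`q` a coset representative), supported on `C'`; the `E_q` are orthogonal (ORT), their
sum `E` is a central idempotent of `F A`.  FRS for `A`, `C'`, `E`: the left side is the sum over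
the blocks `b` of `C'` with `E b = b` of `YY ⊤ (b | stab b)`; each of them has `E_q b = b` for
exactly one `q`.  For given `q` let `U' = conjS q U`, `X' = N(U') = conjS q X`; `Q ≤ C(U') ≤ X'`.  The
group `A_q = N_{X'}(Q)/Q` is a subgroup of `A` which contains `C'` (`C(Q) ≤ C(U')`), and FRS for
`A_q`, `C'`, `E_q` shows that `YY ⊤ (E_q | A_q)` is the sum of the `YY ⊤ (b | stab_{A_q} b)` over the
`b` with `E_q b = b`.  `stab_A(b) ≤ A_q`: if `n ∈ N(Q)` stabilises `b`, then `b` is under `E_q` and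
under `n E_q n⁻¹`, which belongs to `n U' n⁻¹ ≤ Q`, so `n U' n⁻¹ = U'` (ORT), `n ∈ X'`.  So the left
side is `∑_q YY ⊤ (E_q | A_q)`.  Conjugation with `q⁻¹` (`H75.YY_transport`) maps `X'`, `Q`, `cj q f` to
`X`, `Q' = conjS q⁻¹ Q`, `f`, and `YY ⊤ (E_q | A_q)` becomes
`YQ ℓ (f | X) (Q'.subgroupOf X)` (`br_{Q'}` in `X` is `br_{Q'}` in `G` restricted to `X`). -/
def TebStmt : Prop := ∀ (ℓ : ℕ) [Fact ℓ.Prime] (M : Ideal (integralClosure ℤ ℂ)) [M.IsMaximal],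
  (ℓ : integralClosure ℤ ℂ) ∈ M → ∀ (G : Type) [Group G] [Finite G] (e : G → FF M)
  (V : Subgroup G) (γ : G → FF M), Ld ℓ e V γ → ∀ (n : ℕ) (U : Subgroup G), U = Uw n V →
  ∀ f : G → FF M, Fs ℓ e V U γ f → ∀ Q : Subgroup G, IsPGroup ℓ Q →
  YY ℓ ⊤ (push (QuotientGroup.mk' (Q.subgroupOf (Subgroup.normalizer (Q : Set G))))
    (fun t : Subgroup.normalizer (Q : Set G) => brU U Q f t)) =
    ∑ᶠ (q : G ⧸ Subgroup.normalizer (U : Set G)) (_ : Bt U Q q.out),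
      YQ ℓ (fun t : Subgroup.normalizer (U : Set G) => f t)
        ((conjS q.out⁻¹ Q).subgroupOf (Subgroup.normalizer (U : Set G)))

/-- TEX: the subgroups of `X = N(U)` which do not contain `U`.

Proof.  `V_X = V.subgroupOf X`, `U_X = Uw n V_X` (PWU), normal in `X`.  If `Q` is not good for `f | X`
then `br_Q = 0` and `YQ = 0`.  If `Q` is good then it is conjugate in `X` to a subgroup of `V_X`
(`FmgStmt`), so abelian; if it contains `U_X` it also centralises it, against the hypothesis.  So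
`U_X` is not contained in `Q`.  `YQ` is the sum of the `YY ⊤ f₁` over the blocks `f₁` of
`A = N_X(Q)/Q` under `push (br_Q f)` (`AddStmt`).  QT1, LCJ, QT2 for `X` (compare TYA): `k ∈ X`,
`Q ≤ conjS k V_X`, `V' = p(conjS k V_X)` a defect group of `f₁`, `ix V' γ' ≤ ix V_X γ = ix V γ`
(`Fs.ix`).  `V ≅ V_X → V'` is surjective.  By PWU the exponent of `V'` is `ℓ ^ a`, or
`U_X = conjS k U_X ≤ Q`; the latter is excluded.  `|A| < |X| ≤ |G|` (`Q ≠ ⊥`), so `YY ⊤ f₁ = 0` by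
`Ih`. -/
def TexStmt : Prop := ∀ (ℓ : ℕ) [Fact ℓ.Prime] (M : Ideal (integralClosure ℤ ℂ)) [M.IsMaximal],
  (ℓ : integralClosure ℤ ℂ) ∈ M → ∀ (G : Type) [Group G] [Finite G] (e : G → FF M)
  (V : Subgroup G) (γ : G → FF M), Ld ℓ e V γ → ∀ a : ℕ, 0 < a → Monoid.exponent V = ℓ ^ a →
  ∀ U : Subgroup G, U = Uw (ℓ ^ (a - 1)) V → ∀ f : G → FF M, Fs ℓ e V U γ f →
  Ih M ℓ a (Nat.card G) V (ix V γ) → ∀ Q : Subgroup (Subgroup.normalizer (U : Set G)),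
  IsPGroup ℓ Q → Q ≠ ⊥ →
  ¬ (U.subgroupOf (Subgroup.normalizer (U : Set G)) ≤ Q ∧
    Q ≤ (Subgroup.centralizer (U : Set G)).subgroupOf (Subgroup.normalizer (U : Set G))) →
  YQ ℓ (fun t : Subgroup.normalizer (U : Set G) => f t) Q = 0

/-- TES: the telescoping sum.

Proof.  `X = N(U)`, `f_X = f | X`, `U ≠ ⊥` (PWU).  `YY ⊤ f_X = 0` (`YzrStmt`: `U_X` is a normal
`ℓ`-subgroup `≠ ⊥` of `X`, so `opCore ℓ X ≠ ⊥`).  RecStmt for `X`:
`∑_{Q ≠ ⊥} |Q| YQ_X(f_X, Q) = |X| ln f_X` (`lnum ⊤ = ln`), and by TEX only the `Q` with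
`U_X ≤ Q ≤ C(U)` contribute.  RecStmt for `G` with TEA and TEB:
`YY ⊤ e = |G| ln e - ∑_Q |Q| ∑_{q, Bt U Q q} YQ_X(f_X, (conjS q⁻¹ Q)_X)`.  For given `q` the map
`Q ↦ (conjS q⁻¹ Q).subgroupOf X` is a bijection of the `ℓ`-subgroups `Q` with `Bt U Q q`
(`Q ≠ ⊥` automatically, `conjS q⁻¹ Q ≤ C(U) ≤ X`) onto the `ℓ`-subgroups of `X` between `U_X` and
`C(U)`, and it preserves the order.  So the double sum is
`|G : X| |X| ln f_X = |G| ln f_X`. -/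
def TesStmt : Prop := ∀ (ℓ : ℕ) [Fact ℓ.Prime] (M : Ideal (integralClosure ℤ ℂ)) [M.IsMaximal],
  (ℓ : integralClosure ℤ ℂ) ∈ M → ∀ (G : Type) [Group G] [Finite G] (e : G → FF M)
  (V : Subgroup G) (γ : G → FF M), Ld ℓ e V γ → ∀ a : ℕ, 0 < a → Monoid.exponent V = ℓ ^ a →
  ∀ U : Subgroup G, U = Uw (ℓ ^ (a - 1)) V → ∀ f : G → FF M, Fs ℓ e V U γ f →
  Ih M ℓ a (Nat.card G) V (ix V γ) →
  YY ℓ ⊤ e = (Nat.card G : ℤ) *
    ((ln e : ℤ) - (ln (fun t : Subgroup.normalizer (U : Set G) => f t) : ℤ))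

/-! ## 3. The theorem -/

/-- DVX: the exponent of the defect group divides the alternating sum.

Proof.  As `T3.DvsStmt`, with `z` instead of an element of order `ℓ` (`ML.Mn4Stmt` with
`opCore ℓ G = ⊥`, `ρ` = identity of the abelian group `V`). -/
def DvxStmt : Prop := ∀ (ℓ : ℕ) [Fact ℓ.Prime] (M : Ideal (integralClosure ℤ ℂ)) [M.IsMaximal],
  (ℓ : integralClosure ℤ ℂ) ∈ M → ∀ (G : Type) [Group G] [Finite G], opCore ℓ G = ⊥ →
  ∀ (e : G → FF M) (V : Subgroup G) (γ : G → FF M), Ld ℓ e V γ → V ≠ ⊥ → ∀ χ ∈ Irr G,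
  res M e χ = 1 → ∀ z ∈ V, (orderOf z : ℤ) ∣ altSum ℓ M χ

/-- T2A: the main theorem for block idempotents.

Proof.  Induction on `|G|`.  If `opCore ℓ G ≠ ⊥`: `YzrStmt`.  Let `opCore ℓ G = ⊥`.  `Ih` holds by
induction and TYQ.  FST: `f`; TES: `YY ⊤ e = |G| (ln e - ln f_X)`.  `1 ≤ ln e, ln f_X ≤ ℓ ^ a`
(`K9.LbdStmt`, LB2 for `G` and for `X`, `f_X`, `V_X`: `V_X ≅ V` has the type `Ty` with the same
inertial index, `Fs.ld`, `Fs.ix`, TYQ).  `V` has an element `z` of order `ℓ ^ a`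
(`Monoid.exists_orderOf_eq_exponent`), `V ≠ ⊥`.  `H75.block_case` (with POS) gives `χ` with
`res M e χ = 1` and `|G| altSum χ = YY`, so `altSum χ = ln e - ln f_X`, of absolute value smaller
than `ℓ ^ a` and divisible by `ℓ ^ a` (DVX), so `0`. -/
def T2aStmt : Prop := ∀ (ℓ : ℕ) [Fact ℓ.Prime] (M : Ideal (integralClosure ℤ ℂ)) [M.IsMaximal],
  (ℓ : integralClosure ℤ ℂ) ∈ M → ℓ ≠ 2 → ∀ (a : ℕ) (G : Type) [Group G] [Finite G]
  (e : G → FF M) (V : Subgroup G) (γ : G → FF M), Ld ℓ e V γ → Ty ℓ a V (ix V γ) → YY ℓ ⊤ e = 0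

/-- DZA: the defect group modulo `O_ℓ(G)`.

Proof.  `Tp ℓ e D`: first part of `T3.FltStmt` (needs no hypothesis on `D`).  `p : G → G/Z` with
`Z = opCore ℓ G` central: `f = push p e` is a block (PSG).  Every good `ℓ`-subgroup `R'` of `f` has
the preimage `R ≥ Z`, good for `e` (`K9.PugStmt`), so `|R'| |Z| = |R| ≤ |D|`; `Z ≤ D` (`Z D` is good
for `e`: `C(Z D) = C(D)`, and `|Z D| ≤ |D|`), `D.map p` is good for `f` (`PugStmt`), of order
`|D|/|Z|`.  `γ`: a block of `C(D.map p)` under `br(f) ≠ 0`. -/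
def DzaStmt : Prop := ∀ (ℓ : ℕ) [Fact ℓ.Prime] (M : Ideal (integralClosure ℤ ℂ)) [M.IsMaximal],
  (ℓ : integralClosure ℤ ℂ) ∈ M → ∀ (G : Type) [Group G] [Finite G],
  opCore ℓ G ≤ Subgroup.center G → ∀ χ ∈ Irr G, ∀ D : Subgroup G, ML.IsDef ℓ M χ D →
  (∀ x ∈ D, ∀ y ∈ D, x * y * x⁻¹ * y⁻¹ ∈ opCore ℓ G) → ∀ e : G → FF M, IsBlk e →
  res M e χ = 1 → ∀ (A : Type) [Group A] [Finite A] (p : G →* A), Function.Surjective p →
  p.ker = opCore ℓ G → IsBlk (push p e) ∧ opCore ℓ G ≤ D ∧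
    Nat.card (D.map p) * Nat.card (opCore ℓ G) = Nat.card D ∧
    ∃ γ : A → FF M, Ld ℓ (push p e) (D.map p) γ

/-- FN2: the final theorem for defect groups of rank two.

Proof.  `e` the block of `χ`, `p : G → G/Z`, `Z = opCore ℓ G`.  `H75.altSum_central`:
`|G| altSum χ = |Z|² YY ℓ ⊤ (push p e)`.  DZA: `Ld ℓ (push p e) (D.map p) γ`, and
`D.map p ≅ D/Z ≅ C_(ℓ^a) × C_(ℓ^b)` is generated by two elements, of exponent
`ℓ ^ max(a,b)` and order `ℓ ^ (a+b) < ℓ ^ (2 max(a,b))`.  T2A. -/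
def Fn2Stmt : Prop := ∀ (ℓ : ℕ) [Fact ℓ.Prime] (M : Ideal (integralClosure ℤ ℂ)) [M.IsMaximal],
  (ℓ : integralClosure ℤ ℂ) ∈ M → ℓ ≠ 2 → ∀ (G : Type) [Group G] [Finite G],
  opCore ℓ G ≤ Subgroup.center G → ∀ χ ∈ Irr G, ∀ D : Subgroup G, ML.IsDef ℓ M χ D →
  ∀ (a b : ℕ), a ≠ b →
  ∀ φ : D →* Multiplicative (ZMod (ℓ ^ a)) × Multiplicative (ZMod (ℓ ^ b)),
  Function.Surjective φ → (∀ x : D, φ x = 1 ↔ (x : G) ∈ opCore ℓ G) → altSum ℓ M χ = 0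

/-- FN3: the final theorem for inertial index smaller than `ℓ`.

Proof.  As `T3.FntStmt`: FLT gives `γ` with `ix D γ = |Iner| / |C(D)| < ℓ`, QTD for `Q = Z` gives
`Ld ℓ f V' γ'` for `f = push p e`, `ix V' γ' ≤ ix D γ`; `V'` is (conjugate to) `D/Z`, of exponent
`ℓ ^ a` and order smaller than `ℓ ^ (2 a)` (`Ty ℓ a V' (ix V' γ')`; use QT1 to see that `V'` is a
quotient of `D` with kernel `Z`).  T2A, `H75.altSum_central`. -/
def Fn3Stmt : Prop := ∀ (ℓ : ℕ) [Fact ℓ.Prime] (M : Ideal (integralClosure ℤ ℂ)) [M.IsMaximal],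
  (ℓ : integralClosure ℤ ℂ) ∈ M → ℓ ≠ 2 → ∀ (G : Type) [Group G] [Finite G],
  opCore ℓ G ≤ Subgroup.center G → ∀ χ ∈ Irr G, ∀ D : Subgroup G, ML.IsDef ℓ M χ D →
  (∀ x ∈ D, ∀ y ∈ D, x * y = y * x) → ∀ a : ℕ, 0 < a → (∀ x ∈ D, x ^ ℓ ^ a ∈ opCore ℓ G) →
  (∃ x ∈ D, x ^ ℓ ^ (a - 1) ∉ opCore ℓ G) →
  Nat.card D < ℓ ^ (2 * a) * Nat.card (opCore ℓ G) →
  ∀ θ ∈ IrrBlock M (Subgroup.centralizer (D : Set G)).subtype χ,
  (Iner M D θ).ncard < ℓ * Nat.card (Subgroup.centralizer (D : Set G)) →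
  altSum ℓ M χ = 0

end Pool.Agent.PP.T2
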